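import Pool.Agent.TK.Assemble

set_option autoImplicit false

/-!
# Tight analytic Klein bottles with circle symmetry (MP_336b57_gt)

There is no tight substantial real-analytic immersion of the Klein bottle into Euclidean
four-space that is equivariant under the rotations of the Klein bottle.
-/

namespace Pool.Agent.Results.MP_336b57_gt.KleinCircle

open Set
open scoped RealInnerProductSpace

/-- Euclidean four-space. -/
abbrev E4 := EuclideanSpace ℝ (Fin 4)

/-- The gluing of the plane: `(s, t)` is glued to `(s + π, -t)` and to `(s, t + 2π)`. -/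
def Glue (p q : ℝ × ℝ) : Prop :=
  q = (p.1 + Real.pi, -p.2) ∨ q = (p.1, p.2 + 2 * Real.pi)

/-- The Klein bottle: the quotient space of the plane by the equivalence relation generated
by `Glue`. -/
abbrev Klein : Type := Quot Glue

/-- The point of the Klein bottle with coordinates `(s, t)`. -/
def mk (s t : ℝ) : Klein := Quot.mk Glue (s, t)

/-- `f` is a real-analytic immersion: so is its lift to the plane (the universal covering). -/
def IsAnalyticImmersion (f : Klein → E4) : Prop :=
  AnalyticOnNhd ℝ (fun p : ℝ × ℝ => f (mk p.1 p.2)) univ ∧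
    ∀ p : ℝ × ℝ, Function.Injective (fderiv ℝ (fun p : ℝ × ℝ => f (mk p.1 p.2)) p)

/-- `f` is tight: the preimage of every closed half-space is connected or empty. -/
def IsTight (f : Klein → E4) : Prop :=
  ∀ (n : E4) (c : ℝ), n ≠ 0 → IsPreconnected (f ⁻¹' {x | c ≤ ⟪n, x⟫})

/-- `f` is substantial: its image lies in no affine hyperplane. -/
def IsSubstantial (f : Klein → E4) : Prop :=
  ∀ (n : E4) (c : ℝ), n ≠ 0 → ∃ x, ⟪n, f x⟫ ≠ c

/-- `f` has circle symmetry: every rotation `(s, t) ↦ (s + c, t)` of the Klein bottle is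
induced by an isometry of the ambient space. -/
def HasCircleSymmetry (f : Klein → E4) : Prop :=
  ∀ c : ℝ, ∃ ρ : E4 ≃ᵢ E4, ∀ s t : ℝ, f (mk (s + c) t) = ρ (f (mk s t))

/-- There is no tight substantial real-analytic immersion of the Klein bottle into
four-space with circle symmetry. -/
theorem result : ¬ ∃ f : Klein → E4, IsAnalyticImmersion f ∧ IsTight f ∧ IsSubstantial f ∧
    HasCircleSymmetry f := by
  rintro ⟨f, ⟨han, himm⟩, ht, hs, hsym⟩
  have h1 : ∀ s t : ℝ, mk (s + Real.pi) (-t) = mk s t := fun s t =>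
    (Quot.sound (r := Glue) (a := (s, t)) (b := (s + Real.pi, -t)) (Or.inl rfl)).symm
  have h2 : ∀ s t : ℝ, mk s (t + 2 * Real.pi) = mk s t := fun s t =>
    (Quot.sound (r := Glue) (a := (s, t)) (b := (s, t + 2 * Real.pi)) (Or.inr rfl)).symm
  refine Pool.Agent.TK.assemble (fun p => f (mk p.1 p.2)) han himm
    (fun s t => by simp only [h1]) (fun s t => by simp only [h2]) (fun n hn c => ?_)
    (fun c => ?_) (fun n c hn G hG hGi => ?_)
  · obtain ⟨x, hx⟩ := hs n c hn
    obtain ⟨p, rfl⟩ := Quot.exists_rep x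
    exact ⟨p, hx⟩
  · obtain ⟨ρ, hρ⟩ := hsym c
    exact ⟨ρ, fun s t => hρ s t⟩
  · -- `G` descends to the Klein bottle
    obtain ⟨G', hG', hGG⟩ : ∃ G' : Klein → ℂ, Continuous G' ∧ ∀ p : ℝ × ℝ, G' (mk p.1 p.2) = G p := by
      refine ⟨Quot.lift G ?_, continuous_quot_lift _ hG, fun p => rfl⟩
      rintro ⟨s, t⟩ _ (rfl | rfl)
      · exact (hGi.1 s t).symm
      · exact (hGi.2 s t).symm
    have himage : G '' {p | c ≤ ⟪n, f (mk p.1 p.2)⟫} = G' '' (f ⁻¹' {x | c ≤ ⟪n, x⟫}) := by
      ext y
      constructor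
      · rintro ⟨p, hp, rfl⟩
        exact ⟨mk p.1 p.2, hp, hGG p⟩
      · rintro ⟨x, hx, rfl⟩
        obtain ⟨p, rfl⟩ := Quot.exists_rep x
        exact ⟨p, hx, (hGG p).symm⟩
    rw [himage]
    exact (ht n c hn).image _ hG'.continuousOn

end Pool.Agent.Results.MP_336b57_gt.KleinCircle
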